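import Mathlib

/-!
# `8 (2n-1) C(3n,n)` divides the self-convolution of `C(6k,3k) C(3k,k)`
-/

set_option autoImplicit false

namespace Pool.Agent.Results.MP_cbedb1_nt.SelfConvolution

open Nat Finset

/-- the numbers `a_k = (6k)! / ((3k)! (2k)! k!)` -/
def a (k : ℕ) : ℕ := (6 * k).choose (3 * k) * (3 * k).choose k

theorem a_ne (k : ℕ) : a k ≠ 0 := by
  unfold a
  have h1 := Nat.choose_pos (n := 6 * k) (k := 3 * k) (by omega)
  have h2 := Nat.choose_pos (n := 3 * k) (k := k) (by omega)
  positivity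

theorem a_fact (k : ℕ) : a k * (3 * k)! * (2 * k)! * k ! = (6 * k)! := by
  have h1 := Nat.choose_mul_factorial_mul_factorial (n := 6 * k) (k := 3 * k) (by omega)
  have h2 := Nat.choose_mul_factorial_mul_factorial (n := 3 * k) (k := k) (by omega)
  rw [show 6 * k - 3 * k = 3 * k by omega] at h1
  rw [show 3 * k - k = 2 * k by omega] at h2
  unfold a
  calc (6 * k).choose (3 * k) * (3 * k).choose k * (3 * k)! * (2 * k)! * k !
      = (6 * k).choose (3 * k) * (3 * k)! * ((3 * k).choose k * k ! * (2 * k)!) := by ring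
    _ = _ := by rw [h2, h1]

section val

variable (p : ℕ) [hp : Fact p.Prime]

theorem val_a (k : ℕ) : padicValNat p (a k) + padicValNat p (3 * k)! + padicValNat p (2 * k)! +
    padicValNat p k ! = padicValNat p (6 * k)! := by
  rw [← a_fact k, padicValNat.mul, padicValNat.mul, padicValNat.mul]
  all_goals first
    | exact a_ne k
    | exact Nat.factorial_ne_zero _
    | exact mul_ne_zero (a_ne k) (Nat.factorial_ne_zero _)
    | exact mul_ne_zero (mul_ne_zero (a_ne k) (Nat.factorial_ne_zero _)) (Nat.factorial_ne_zero _)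

theorem ch_ne (n : ℕ) : (3 * n).choose n ≠ 0 := (Nat.choose_pos (by omega)).ne'

theorem val_c (n : ℕ) : padicValNat p ((3 * n).choose n) + padicValNat p n ! +
    padicValNat p (2 * n)! = padicValNat p (3 * n)! := by
  have h2 := Nat.choose_mul_factorial_mul_factorial (n := 3 * n) (k := n) (by omega)
  rw [show 3 * n - n = 2 * n by omega] at h2
  rw [← h2, padicValNat.mul, padicValNat.mul]
  all_goals first
    | exact ch_ne n
    | exact Nat.factorial_ne_zero _
    | exact mul_ne_zero (ch_ne n) (Nat.factorial_ne_zero _)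

theorem val_pred (n : ℕ) (hn : 0 < n) : padicValNat p (2 * n - 1) + padicValNat p (2 * n - 2)! =
    padicValNat p (2 * n - 1)! := by
  obtain ⟨m, rfl⟩ : ∃ m, n = m + 1 := ⟨n - 1, by omega⟩
  rw [show 2 * (m + 1) - 1 = 2 * m + 1 by omega, show 2 * (m + 1) - 2 = 2 * m by omega,
    Nat.factorial_succ, padicValNat.mul (by omega) (Nat.factorial_ne_zero _)]

end val

theorem gA (A : ℕ) : A / 2 + A / 3 + A / 6 ≤ A ∧ (A % 6 = 0 ∨ A / 2 + A / 3 + A / 6 + 1 ≤ A) := by
  omega

theorem hE (E : ℕ) : E / 2 ≤ E / 3 + E / 6 + 1 ∧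
    ((E % 6 = 0 ∨ E % 6 = 1 ∨ E % 6 = 3) → E / 2 ≤ E / 3 + E / 6) := by
  omega

theorem comb (A B E : ℕ) (h1 : A + B ≤ E) (h2 : E ≤ A + B + 1) (hA : A % 6 = 0)
    (hB : B % 6 = 0) : E % 6 = 0 ∨ E % 6 = 1 := by
  omega

/-- the inequality at one level of the formula of Legendre -/
theorem level (q x y : ℕ) (hq : 5 ≤ q) (hodd : q % 2 = 1) (hn : 0 < x + y) :
    (2 * (x + y) - 1) / q + 3 * (x + y) / q + (3 * x / q + 2 * x / q + x / q) +
      (3 * y / q + 2 * y / q + y / q) ≤
    6 * x / q + 6 * y / q + (x + y) / q + 2 * (x + y) / q + (2 * (x + y) - 2) / q := by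
  have hq0 : 0 < q := by omega
  have h3 : ∀ z, 3 * z / q = (6 * z / q) / 2 := fun z => by
    rw [Nat.div_div_eq_div_mul, show 6 * z = (3 * z) * 2 by ring, Nat.mul_div_mul_right _ _ two_pos]
  have h2 : ∀ z, 2 * z / q = (6 * z / q) / 3 := fun z => by
    rw [Nat.div_div_eq_div_mul, show 6 * z = (2 * z) * 3 by ring,
      Nat.mul_div_mul_right _ _ (by norm_num)]
  have h1 : ∀ z, z / q = (6 * z / q) / 6 := fun z => by
    rw [Nat.div_div_eq_div_mul, show 6 * z = z * 6 by ring,
      Nat.mul_div_mul_right _ _ (by norm_num)]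
  have hE1 : 6 * x / q + 6 * y / q ≤ 6 * (x + y) / q := by
    rw [mul_add]
    exact Nat.div_add_div_le_add_div
  have hE2 : 6 * (x + y) / q ≤ 6 * x / q + 6 * y / q + 1 := by
    rw [mul_add, Nat.add_div hq0]
    split_ifs
    · exact le_refl _
    · exact Nat.le_succ _
  have hS : (2 * (x + y) - 1) / q = (2 * (x + y) - 2) / q +
      if q ∣ 2 * (x + y) - 2 + 1 then 1 else 0 := by
    rw [← Nat.succ_div]
    congr 1
    omega
  have hd : q ∣ 2 * (x + y) - 2 + 1 → (6 * (x + y) / q) % 6 = 3 := by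
    rintro ⟨m, hm⟩
    have hm2 : m % 2 = 1 := by
      by_contra hcon
      have h5 : m % 2 = 0 := by omega
      have h6 : (q * m) % 2 = 0 := by rw [Nat.mul_mod, h5]; simp
      omega
    have hE : 6 * (x + y) / q = 3 * m := by
      have h7 : q * (3 * m) = 3 * (q * m) := by ring
      have h8 : 6 * (x + y) = 3 + q * (3 * m) := by omega
      rw [h8, Nat.add_mul_div_left _ _ hq0, Nat.div_eq_of_lt (by omega), zero_add]
    rw [hE]
    omega
  rw [h3 x, h3 y, h3 (x + y), h2 x, h2 y, h2 (x + y), h1 x, h1 y, h1 (x + y), hS]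
  generalize 6 * (x + y) / q = E at *
  generalize 6 * x / q = A at *
  generalize 6 * y / q = B at *
  generalize (2 * (x + y) - 2) / q = P at *
  clear h1 h2 h3 hS
  obtain ⟨gA1, gA2⟩ := gA A
  obtain ⟨gB1, gB2⟩ := gA B
  obtain ⟨e1, e2⟩ := hE E
  have hc := comb A B E hE1 hE2
  have hif : (if q ∣ 2 * (x + y) - 2 + 1 then 1 else 0) = 0 ∨
      ((if q ∣ 2 * (x + y) - 2 + 1 then 1 else 0) = 1 ∧ E % 6 = 3) := by
    by_cases hdd : q ∣ 2 * (x + y) - 2 + 1
    · right
      exact ⟨if_pos hdd, hd hdd⟩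
    · left
      exact if_neg hdd
  generalize (if q ∣ 2 * (x + y) - 2 + 1 then 1 else 0) = c at *
  clear hd hn hodd hq hq0 hE1 hE2
  generalize A / 2 + A / 3 + A / 6 = a' at *
  generalize B / 2 + B / 3 + B / 6 = b' at *
  generalize E / 2 = e' at *
  generalize E / 3 = f' at *
  generalize E / 6 = g' at *
  rcases gA2 with h | h
  · rcases gB2 with h' | h'
    · have h9 := hc h h'
      have h10 := e2 (by tauto)
      rcases hif with h11 | ⟨-, h12⟩
      · omega
      · omega
    · rcases hif with h11 | ⟨h11, h12⟩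
      · omega
      · have h10 := e2 (by tauto)
        omega
  · rcases hif with h11 | ⟨h11, h12⟩
    · omega
    · have h10 := e2 (by tauto)
      omega

theorem val5 (p : ℕ) [hp : Fact p.Prime] (h5 : 5 ≤ p) (x y : ℕ) (hn : 0 < x + y) :
    padicValNat p (2 * (x + y) - 1) + padicValNat p ((3 * (x + y)).choose (x + y)) ≤
      padicValNat p (a x) + padicValNat p (a y) := by
  have e1 := val_a p x
  have e2 := val_a p y
  have e3 := val_c p (x + y)
  have e4 := val_pred p (x + y) hn
  have leg : ∀ m, m ≤ 6 * (x + y) → padicValNat p m ! =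
      ∑ i ∈ Finset.Ico 1 (Nat.log p (6 * (x + y)) + 1), m / p ^ i := fun m hm =>
    padicValNat_factorial (Nat.lt_succ_of_le (Nat.log_mono_right hm))
  rw [leg (3 * x) (by omega), leg (2 * x) (by omega), leg x (by omega),
    leg (6 * x) (by omega)] at e1
  rw [leg (3 * y) (by omega), leg (2 * y) (by omega), leg y (by omega),
    leg (6 * y) (by omega)] at e2
  rw [leg (3 * (x + y)) (by omega), leg (2 * (x + y)) (by omega), leg (x + y) (by omega)] at e3
  rw [leg (2 * (x + y) - 1) (by omega), leg (2 * (x + y) - 2) (by omega)] at e4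
  have key : ∑ i ∈ Finset.Ico 1 (Nat.log p (6 * (x + y)) + 1), ((2 * (x + y) - 1) / p ^ i +
        3 * (x + y) / p ^ i + (3 * x / p ^ i + 2 * x / p ^ i + x / p ^ i) +
      (3 * y / p ^ i + 2 * y / p ^ i + y / p ^ i)) ≤
      ∑ i ∈ Finset.Ico 1 (Nat.log p (6 * (x + y)) + 1), (6 * x / p ^ i + 6 * y / p ^ i +
        (x + y) / p ^ i + 2 * (x + y) / p ^ i + (2 * (x + y) - 2) / p ^ i) := by
    refine Finset.sum_le_sum fun i hi => ?_
    have hi1 : i ≠ 0 := by
      have := (Finset.mem_Ico.1 hi).1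
      omega
    refine level (p ^ i) x y (h5.trans (Nat.le_self_pow hi1 p)) ?_ hn
    have hpo : p % 2 = 1 := (hp.out.eq_two_or_odd).resolve_left (by omega)
    rw [Nat.pow_mod, hpo, one_pow]
    rfl
  simp only [Finset.sum_add_distrib] at key
  omega

theorem centralBinom_dvd (n : ℕ) (hn : 0 < n) : 2 * n - 1 ∣ (2 * n).choose n := by
  obtain ⟨m, rfl⟩ : ∃ m, n = m + 1 := ⟨n - 1, by omega⟩
  have h := Nat.succ_mul_centralBinom_succ m
  rw [show 2 * (m + 1) - 1 = 2 * m + 1 by omega]
  have h1 : 2 * m + 1 ∣ (m + 1) * centralBinom (m + 1) := by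
    rw [h]
    exact Dvd.intro_left (2 * 1) (by ring) |>.trans (Dvd.intro _ rfl)
  refine Nat.Coprime.dvd_of_dvd_mul_left ?_ h1
  have : Nat.Coprime (m + 1) (2 * m + 1) := by
    rw [show 2 * m + 1 = m + (m + 1) by ring, Nat.coprime_add_self_right]
    simp
  exact this.symm

theorem val3 (x y : ℕ) (hn : 0 < x + y) :
    padicValNat 3 (2 * (x + y) - 1) + padicValNat 3 ((3 * (x + y)).choose (x + y)) ≤
      padicValNat 3 (a x) + padicValNat 3 (a y) := by
  have ha : ∀ k, padicValNat 3 (a k) + 2 * padicValNat 3 k ! = k := fun k => by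
    have h1 := val_a 3 k
    have h2 := padicValNat_factorial_mul (p := 3) k
    have h3 := padicValNat_factorial_mul (p := 3) (2 * k)
    rw [show 3 * (2 * k) = 6 * k by ring] at h3
    omega
  have h1 := ha x
  have h2 := ha y
  have h3 := val_c 3 (x + y)
  have h4 := padicValNat_factorial_mul (p := 3) (x + y)
  have h5 : padicValNat 3 (2 * (x + y))! = padicValNat 3 ((2 * (x + y)).choose (x + y)) +
      2 * padicValNat 3 (x + y)! := by
    have h := Nat.choose_mul_factorial_mul_factorial (n := 2 * (x + y)) (k := x + y) (by omega)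
    rw [show 2 * (x + y) - (x + y) = x + y by omega] at h
    have hc : (2 * (x + y)).choose (x + y) ≠ 0 := (Nat.choose_pos (by omega)).ne'
    rw [← h, padicValNat.mul (mul_ne_zero hc (Nat.factorial_ne_zero _)) (Nat.factorial_ne_zero _),
      padicValNat.mul hc (Nat.factorial_ne_zero _)]
    ring
  have h6 : padicValNat 3 (2 * (x + y) - 1) ≤ padicValNat 3 ((2 * (x + y)).choose (x + y)) := by
    have hc : (2 * (x + y)).choose (x + y) ≠ 0 := (Nat.choose_pos (by omega)).ne'
    rw [← padicValNat_dvd_iff_le hc]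
    exact pow_padicValNat_dvd.trans (centralBinom_dvd _ hn)
  have h7 : padicValNat 3 x ! + padicValNat 3 y ! ≤ padicValNat 3 (x + y)! := by
    rw [← padicValNat.mul (Nat.factorial_ne_zero _) (Nat.factorial_ne_zero _),
      ← padicValNat_dvd_iff_le (Nat.factorial_ne_zero _)]
    exact pow_padicValNat_dvd.trans (Nat.factorial_mul_factorial_dvd_factorial_add x y)
  omega

theorem val2_le (m : ℕ) (hm : 0 < m) : padicValNat 2 m ! + 1 ≤ m := by
  have h := sub_one_mul_padicValNat_factorial (p := 2) m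
  have h1 : 0 < (Nat.digits 2 m).sum := by
    by_contra hcon
    have h0 : (Nat.digits 2 m).sum = 0 := by omega
    have hne : Nat.digits 2 m ≠ [] := Nat.digits_ne_nil_iff_ne_zero.2 hm.ne'
    have hl := Nat.getLast_digit_ne_zero 2 hm.ne'
    have h3 : (Nat.digits 2 m).getLast hne ∈ Nat.digits 2 m := List.getLast_mem hne
    have h4 := List.le_sum_of_mem h3
    omega
  have h2 := Nat.digit_sum_le 2 m
  omega

theorem val2_three (n : ℕ) (hn : 0 < n) : padicValNat 2 (3 * n)! + 2 ≤ 3 * n := by
  induction n using Nat.strong_induction_on with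
  | _ n ih =>
    rcases Nat.even_or_odd' n with ⟨m, rfl | rfl⟩
    · have h1 := ih m (by omega) (by omega)
      rw [show 3 * (2 * m) = 2 * (3 * m) by ring, padicValNat_factorial_mul]
      omega
    · have h1 := val2_le (3 * m + 1) (by omega)
      rw [show 3 * (2 * m + 1) = 2 * (3 * m + 1) + 1 by ring,
        padicValNat_factorial_mul_add _ (by norm_num), padicValNat_factorial_mul]
      omega

theorem val2_a (k : ℕ) : padicValNat 2 (a k) + 2 * padicValNat 2 k ! = 2 * k := by
  have h1 := val_a 2 k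
  have h2 := padicValNat_factorial_mul (p := 2) k
  have h3 := padicValNat_factorial_mul (p := 2) (3 * k)
  rw [show 2 * (3 * k) = 6 * k by ring] at h3
  omega

theorem exists_w (k : ℕ) : ∃ w : ℕ, w % 2 = 1 ∧ a k * (k ! * k !) = 4 ^ k * w := by
  have hne : a k * (k ! * k !) ≠ 0 :=
    mul_ne_zero (a_ne k) (mul_ne_zero (Nat.factorial_ne_zero _) (Nat.factorial_ne_zero _))
  have hv : padicValNat 2 (a k * (k ! * k !)) = 2 * k := by
    rw [padicValNat.mul (a_ne k) (mul_ne_zero (Nat.factorial_ne_zero _)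
      (Nat.factorial_ne_zero _)), padicValNat.mul (Nat.factorial_ne_zero _)
      (Nat.factorial_ne_zero _), ← val2_a k]
    ring
  have h1 : 2 ^ (2 * k) ∣ a k * (k ! * k !) := by
    rw [padicValNat_dvd_iff_le hne, hv]
  have h2 : ¬ 2 ^ (2 * k + 1) ∣ a k * (k ! * k !) := by
    rw [padicValNat_dvd_iff_le hne, hv]
    omega
  obtain ⟨w, hw⟩ := h1
  refine ⟨w, ?_, ?_⟩
  · by_contra hcon
    apply h2
    obtain ⟨v, rfl⟩ : 2 ∣ w := by omega
    exact ⟨v, by rw [hw, pow_succ]; ring⟩
  · rw [hw, pow_mul]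
    norm_num

theorem two_part (n : ℕ) (hn : 0 < n) :
    2 * 4 ^ n ∣ (∑ j ∈ Finset.range (n + 1), a j * a (n - j)) * (n ! * n !) := by
  choose w hw1 hw2 using exists_w
  have h1 : (∑ j ∈ Finset.range (n + 1), a j * a (n - j)) * (n ! * n !) =
      4 ^ n * ∑ j ∈ Finset.range (n + 1), n.choose j * n.choose j * (w j * w (n - j)) := by
    rw [Finset.sum_mul, Finset.mul_sum]
    refine Finset.sum_congr rfl fun j hj => ?_
    have hjn : j ≤ n := by
      have := Finset.mem_range.1 hj
      omega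
    have h2 := Nat.choose_mul_factorial_mul_factorial hjn
    calc a j * a (n - j) * (n ! * n !)
        = a j * a (n - j) * ((n.choose j * j ! * (n - j)!) * (n.choose j * j ! * (n - j)!)) := by
          rw [h2]
      _ = n.choose j * n.choose j * ((a j * (j ! * j !)) *
            (a (n - j) * ((n - j)! * (n - j)!))) := by ring
      _ = n.choose j * n.choose j * ((4 ^ j * w j) * (4 ^ (n - j) * w (n - j))) := by
          rw [hw2, hw2]
      _ = (4 ^ j * 4 ^ (n - j)) * (n.choose j * n.choose j * (w j * w (n - j))) := by ring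
      _ = _ := by rw [← pow_add, Nat.add_sub_cancel' hjn]
  rw [h1, mul_comm 2]
  refine Nat.mul_dvd_mul_left _ ?_
  have hw3 : ∀ k, ((w k : ℕ) : ZMod 2) = 1 := fun k => by
    have : ((w k : ℕ) : ZMod 2) = ((1 : ℕ) : ZMod 2) :=
      (ZMod.natCast_eq_natCast_iff _ _ _).2 (by unfold Nat.ModEq; rw [hw1 k])
    simpa using this
  have hidem : ∀ z : ZMod 2, z * z = z := by decide
  rw [← (ZMod.natCast_eq_zero_iff _ 2)]
  push_cast
  rw [Finset.sum_congr rfl (g := fun j => ((n.choose j : ℕ) : ZMod 2))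
    (fun j _ => by rw [hidem, hw3, hw3]; ring), ← Nat.cast_sum, Nat.sum_range_choose]
  rw [Nat.cast_pow, show ((2 : ℕ) : ZMod 2) = 0 from rfl, zero_pow hn.ne']

theorem main (n : ℕ) (hn : 0 < n) :
    8 * (2 * n - 1) * (3 * n).choose n ∣ ∑ j ∈ Finset.range (n + 1), a j * a (n - j) := by
  have hS : ∑ j ∈ Finset.range (n + 1), a j * a (n - j) ≠ 0 := by
    have h1 : a 0 * a (n - 0) ≤ ∑ j ∈ Finset.range (n + 1), a j * a (n - j) :=
      Finset.single_le_sum (f := fun j => a j * a (n - j)) (fun i _ => Nat.zero_le _)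
        (Finset.mem_range.2 (by omega))
    have h2 : 0 < a 0 * a (n - 0) :=
      Nat.mul_pos (Nat.pos_of_ne_zero (a_ne _)) (Nat.pos_of_ne_zero (a_ne _))
    omega
  have hc := ch_ne n
  have ho : 2 * n - 1 ≠ 0 := by omega
  have hN : 8 * (2 * n - 1) * (3 * n).choose n ≠ 0 :=
    mul_ne_zero (mul_ne_zero (by norm_num) ho) hc
  rw [← Nat.factorization_le_iff_dvd hN hS]
  intro p
  by_cases hp : p.Prime
  · haveI : Fact p.Prime := ⟨hp⟩
    rw [Nat.factorization_def _ hp, Nat.factorization_def _ hp,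
      padicValNat.mul (mul_ne_zero (by norm_num) ho) hc, padicValNat.mul (by norm_num) ho]
    rcases hp.eq_two_or_odd with h2 | h2
    · subst h2
      have e1 : padicValNat 2 8 = 3 := by
        rw [show 8 = 2 ^ 3 by norm_num, padicValNat.prime_pow]
      have e2 : padicValNat 2 (2 * n - 1) = 0 :=
        padicValNat.eq_zero_of_not_dvd (by omega)
      have e3 := val_c 2 n
      have e4 := padicValNat_factorial_mul (p := 2) n
      have e5 := val2_three n hn
      have e6 : 2 * n + 1 ≤ padicValNat 2 (∑ j ∈ Finset.range (n + 1), a j * a (n - j)) +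
          2 * padicValNat 2 n ! := by
        have h3 : 2 ^ (2 * n + 1) ∣
            (∑ j ∈ Finset.range (n + 1), a j * a (n - j)) * (n ! * n !) := by
          refine dvd_trans (dvd_of_eq ?_) (two_part n hn)
          rw [pow_succ, pow_mul]
          norm_num
          ring
        rw [padicValNat_dvd_iff_le (mul_ne_zero hS (mul_ne_zero (Nat.factorial_ne_zero _)
          (Nat.factorial_ne_zero _))), padicValNat.mul hS (mul_ne_zero
          (Nat.factorial_ne_zero _) (Nat.factorial_ne_zero _)),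
          padicValNat.mul (Nat.factorial_ne_zero _) (Nat.factorial_ne_zero _)] at h3
        omega
      rw [e1, e2]
      omega
    · have e1 : padicValNat p 8 = 0 := by
        refine padicValNat.eq_zero_of_not_dvd fun h => ?_
        have h3 : p ∣ 2 := hp.dvd_of_dvd_pow (show p ∣ 2 ^ 3 by norm_num; exact h)
        have := (Nat.prime_dvd_prime_iff_eq hp Nat.prime_two).1 h3
        omega
      rw [e1, zero_add, ← padicValNat_dvd_iff_le hS]
      refine Finset.dvd_sum fun j hj => ?_
      rw [padicValNat_dvd_iff_le (mul_ne_zero (a_ne _) (a_ne _)),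
        padicValNat.mul (a_ne _) (a_ne _)]
      have hjn : j ≤ n := by
        have := Finset.mem_range.1 hj
        omega
      have hjj : j + (n - j) = n := by omega
      by_cases h3 : p = 3
      · subst h3
        have := val3 j (n - j) (by omega)
        rwa [hjj] at this
      · have h5 : 5 ≤ p := by
          have h4 := hp.two_le
          by_contra hcon
          have : p = 2 ∨ p = 3 ∨ p = 4 := by omega
          rcases this with h | h | h
          · omega
          · exact h3 h
          · omega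
        have := val5 p h5 j (n - j) (by omega)
        rwa [hjj] at this
  · rw [Nat.factorization_eq_zero_of_not_prime _ hp]
    exact Nat.zero_le _

/-- for every positive `n`, the number `8 (2n-1) C(3n,n)` divides
`∑ a_j a_{n-j}`, where `a_k = C(6k,3k) C(3k,k)` -/
theorem result (n : ℕ) (hn : 0 < n) :
    (8 * (2 * (n : ℤ) - 1) * ((3 * n).choose n : ℤ)) ∣
      ∑ j ∈ Finset.range (n + 1), (((6 * j).choose (3 * j) * (3 * j).choose j : ℕ) : ℤ) *
        (((6 * (n - j)).choose (3 * (n - j)) * (3 * (n - j)).choose (n - j) : ℕ) : ℤ) := by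
  have h := main n hn
  have h2 : ((8 * (2 * n - 1) * (3 * n).choose n : ℕ) : ℤ) ∣
      ((∑ j ∈ Finset.range (n + 1), a j * a (n - j) : ℕ) : ℤ) :=
    Int.natCast_dvd_natCast.2 h
  have e1 : ((8 * (2 * n - 1) * (3 * n).choose n : ℕ) : ℤ) =
      8 * (2 * (n : ℤ) - 1) * ((3 * n).choose n : ℤ) := by
    rw [Nat.cast_mul, Nat.cast_mul, Nat.cast_sub (by omega)]
    push_cast
    ring
  rw [e1, Nat.cast_sum] at h2
  refine h2.trans (dvd_of_eq (Finset.sum_congr rfl fun j _ => ?_))
  rw [Nat.cast_mul]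
  rfl

end Pool.Agent.Results.MP_cbedb1_nt.SelfConvolution
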